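import Pool.Agent.H48.RT.QjK

/-!
J_le_Q13: representation of the defect and its bound by the square function.
-/

set_option autoImplicit false

open MeasureTheory Filter Topology Metric Set
open scoped RealInnerProductSpace ENNReal

namespace Pool.Agent.H48.RT

open Pool.Agent.RZ Pool.Agent.H1.LD Pool.Agent.H48.R7

variable {d : ℕ}

/-- the Gaussian absorbs one power -/
private theorem RTQj_one {β : ℝ} (h : 8 ≤ β) (v : X d) : ‖v‖ * ga β v ≤ 1 := by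
  unfold ga
  have h1 : β * ‖v‖ ^ 2 + 1 ≤ Real.exp (β * ‖v‖ ^ 2) := Real.add_one_le_exp _
  have h2 : ‖v‖ ≤ β * ‖v‖ ^ 2 + 1 := by nlinarith [sq_nonneg (‖v‖ - 1), sq_nonneg ‖v‖]
  rw [Real.exp_neg, ← div_eq_mul_inv, div_le_one (Real.exp_pos _)]
  exact h2.trans h1

/-- the weight `1 + |x - z|^{-12}` -/
private noncomputable def RTQj_r (z x : X d) : ℝ := 1 + ‖x - z‖ * ‖x - z‖⁻¹ ^ 13

private theorem RTQj_r_nonneg (z x : X d) : 0 ≤ RTQj_r z x := by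
  unfold RTQj_r; positivity

private theorem RTQj_r_eq (z x : X d) : ‖x - z‖ * ‖x - z‖⁻¹ ^ 13 = ‖x - z‖⁻¹ ^ 12 := by
  rcases eq_or_ne ‖x - z‖ 0 with h | h
  · rw [h]; norm_num
  · field_simp

private theorem RTQj_r_ge (z x : X d) : ‖x - z‖⁻¹ ^ 12 ≤ RTQj_r z x := by
  unfold RTQj_r
  rw [RTQj_r_eq]
  linarith

private theorem RTQj_r_ge' (z x : X d) : ‖x - z‖⁻¹ ^ 12 * ‖x - z‖ ≤ RTQj_r z x := by
  unfold RTQj_r
  rw [RTQj_r_eq]
  have h0 : 0 ≤ ‖x - z‖⁻¹ ^ 12 := by positivity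
  rcases le_total ‖x - z‖ 1 with h | h
  · have h1 : ‖x - z‖⁻¹ ^ 12 * ‖x - z‖ ≤ ‖x - z‖⁻¹ ^ 12 * 1 := mul_le_mul_of_nonneg_left h h0
    linarith
  · have h1 : ‖x - z‖⁻¹ ≤ 1 := inv_le_one_of_one_le₀ h
    have h2 : ‖x - z‖⁻¹ * ‖x - z‖ = 1 := inv_mul_cancel₀ (by linarith)
    have h3 : ‖x - z‖⁻¹ ^ 12 * ‖x - z‖ = ‖x - z‖⁻¹ ^ 11 := by
      calc ‖x - z‖⁻¹ ^ 12 * ‖x - z‖ = ‖x - z‖⁻¹ ^ 11 * (‖x - z‖⁻¹ * ‖x - z‖) := by ring
        _ = ‖x - z‖⁻¹ ^ 11 := by rw [h2, mul_one]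
    have h4 : ‖x - z‖⁻¹ ^ 11 ≤ 1 := pow_le_one₀ (by positivity) h1
    linarith

private theorem RTQj_r_meas (z : X d) : Measurable (RTQj_r z) := by
  unfold RTQj_r; fun_prop

private theorem RTQj_r_int {μ : Measure (X d)} [IsFiniteMeasure μ] {C₀ : ℝ} (hC : 0 ≤ C₀)
    (h : Gr 13 C₀ μ) (z : X d) : Integrable (RTQj_r z) μ := by
  have hone : Integrable (fun _ : X d => (1 : ℝ)) μ := integrable_const 1
  have hmain : Integrable (fun x : X d => ‖x - z‖ * ‖x - z‖⁻¹ ^ 13) μ := by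
    have hms : Measurable (fun x : X d => ‖x - z‖ * ‖x - z‖⁻¹ ^ 13) := by fun_prop
    refine ⟨hms.aestronglyMeasurable, ?_⟩
    obtain ⟨A, hA, hn⟩ := Gr.near_lintegral (d := d) 13 (by norm_num)
    have h1 := hn C₀ hC μ h z 1 one_pos
    have e : ∀ x : X d, ‖‖x - z‖ * ‖x - z‖⁻¹ ^ 13‖ₑ =
        ENNReal.ofReal (‖x - z‖ * ‖x - z‖⁻¹ ^ 13) := fun x =>
      Real.enorm_of_nonneg (by positivity)
    have hB : MeasurableSet (closedBall z (1 : ℝ)) := isClosed_closedBall.measurableSet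
    have h2 : ∫⁻ x in (closedBall z (1 : ℝ))ᶜ, ENNReal.ofReal (‖x - z‖ * ‖x - z‖⁻¹ ^ 13) ∂μ ≤
        μ univ := by
      calc ∫⁻ x in (closedBall z (1 : ℝ))ᶜ, ENNReal.ofReal (‖x - z‖ * ‖x - z‖⁻¹ ^ 13) ∂μ
          ≤ ∫⁻ _ in (closedBall z (1 : ℝ))ᶜ, 1 ∂μ := by
            refine setLIntegral_mono' hB.compl fun x hx => ?_
            rw [mem_compl_iff, mem_closedBall, not_le, dist_eq_norm] at hx
            rw [← ENNReal.ofReal_one]
            refine ENNReal.ofReal_le_ofReal ?_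
            rw [RTQj_r_eq]
            have h3 : ‖x - z‖⁻¹ ≤ 1 := inv_le_one_of_one_le₀ hx.le
            exact pow_le_one₀ (by positivity) h3
        _ = μ (closedBall z (1 : ℝ))ᶜ := by simp
        _ ≤ μ univ := measure_mono (subset_univ _)
    unfold HasFiniteIntegral
    rw [lintegral_congr e, ← lintegral_add_compl _ hB]
    exact ENNReal.add_lt_top.2 ⟨h1.trans_lt ENNReal.ofReal_lt_top,
      h2.trans_lt (measure_lt_top μ univ)⟩
  exact hone.add hmain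

/-- the integrand of the kernel -/
private noncomputable def RTQj_g (β : ℝ) (z Y x : X d) : ℝ :=
  ‖x - z‖⁻¹ ^ 12 * ((1 - 2 * β * ⟪x - z, x - (z + Y)⟫) * ga β (x - (z + Y)))

private theorem RTQj_g_le {β : ℝ} (h : 8 ≤ β) (z Y x : X d) :
    |RTQj_g β z Y x| ≤ (1 + 2 * β) * RTQj_r z x := by
  unfold RTQj_g
  rw [abs_mul, abs_mul, abs_of_pos (ga_pos _ _),
    abs_of_nonneg (by positivity : (0 : ℝ) ≤ ‖x - z‖⁻¹ ^ 12)]
  have h1 := abs_real_inner_le_norm (x - z) (x - (z + Y))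
  have h2 := RTQj_one h (x - (z + Y))
  have hg := ga_nonneg β (x - (z + Y))
  have hg1 := ga_le_one (b := β) (by linarith) (x - (z + Y))
  have h3 : |1 - 2 * β * ⟪x - z, x - (z + Y)⟫| ≤
      1 + 2 * β * (‖x - z‖ * ‖x - (z + Y)‖) := by
    have h4 := abs_sub 1 (2 * β * ⟪x - z, x - (z + Y)⟫)
    rw [abs_one, abs_mul, abs_of_pos (by linarith : (0 : ℝ) < 2 * β)] at h4
    have h5 := mul_le_mul_of_nonneg_left h1 (by linarith : (0 : ℝ) ≤ 2 * β)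
    linarith
  have h6 : |1 - 2 * β * ⟪x - z, x - (z + Y)⟫| * ga β (x - (z + Y)) ≤
      1 + 2 * β * ‖x - z‖ := by
    calc |1 - 2 * β * ⟪x - z, x - (z + Y)⟫| * ga β (x - (z + Y))
        ≤ (1 + 2 * β * (‖x - z‖ * ‖x - (z + Y)‖)) * ga β (x - (z + Y)) :=
          mul_le_mul_of_nonneg_right h3 hg
      _ = ga β (x - (z + Y)) +
          2 * β * ‖x - z‖ * (‖x - (z + Y)‖ * ga β (x - (z + Y))) := by ring
      _ ≤ 1 + 2 * β * ‖x - z‖ * 1 :=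
          add_le_add hg1 (mul_le_mul_of_nonneg_left h2 (by positivity))
      _ = 1 + 2 * β * ‖x - z‖ := by rw [mul_one]
  have h7 : 0 ≤ ‖x - z‖⁻¹ ^ 12 := by positivity
  have h8 := RTQj_r_ge z x
  have h9 := mul_le_mul_of_nonneg_left (RTQj_r_ge' z x) (by linarith : (0 : ℝ) ≤ 2 * β)
  calc ‖x - z‖⁻¹ ^ 12 * (|1 - 2 * β * ⟪x - z, x - (z + Y)⟫| * ga β (x - (z + Y)))
      ≤ ‖x - z‖⁻¹ ^ 12 * (1 + 2 * β * ‖x - z‖) := mul_le_mul_of_nonneg_left h6 h7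
    _ = ‖x - z‖⁻¹ ^ 12 + 2 * β * (‖x - z‖⁻¹ ^ 12 * ‖x - z‖) := by ring
    _ ≤ RTQj_r z x + 2 * β * RTQj_r z x := add_le_add h8 h9
    _ = (1 + 2 * β) * RTQj_r z x := by ring

private theorem RTQj_g_meas (β : ℝ) (z : X d) :
    Measurable fun q : X d × X d => RTQj_g β z q.1 q.2 := by
  unfold RTQj_g ga
  fun_prop

private theorem RTQj_K13_eq (μ : Measure (X d)) (β : ℝ) (z Y : X d) :
    K13 μ z β (z + Y) = ∫ x, RTQj_g β z Y x ∂μ := rfl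

private theorem RTQj_K13_meas (μ : Measure (X d)) [IsFiniteMeasure μ] (β : ℝ) (z : X d) :
    StronglyMeasurable fun Y : X d => K13 μ z β (z + Y) :=
  ((RTQj_g_meas β z).stronglyMeasurable).integral_prod_right' (ν := μ)

/-- the representation of the defect -/
private theorem RTQj_rep {μ : Measure (X d)} [IsFiniteMeasure μ] {C₀ : ℝ} (hC : 0 ≤ C₀)
    (hG : Gr 13 C₀ μ) {β : ℝ} (h : 8 ≤ β) (h' : β ≤ 32) (z y : X d) :
    Jf 13 μ 4 z y = ∫ Y : X d, jp β (y - z) Y * K13 μ z β (z + Y) := by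
  have hmi := jp_int h h' (y - z)
  have hmc := jp_cont β (y - z)
  have hint : Integrable (Function.uncurry fun (x Y : X d) =>
      RTQj_g β z Y x * jp β (y - z) Y) (μ.prod volume) := by
    refine Integrable.mono' (((RTQj_r_int hC hG z).const_mul (1 + 2 * β)).mul_prod hmi.norm) ?_
      (Eventually.of_forall fun q => ?_)
    · have h1 : Measurable fun q : X d × X d => RTQj_g β z q.2 q.1 := by
        unfold RTQj_g ga
        fun_prop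
      have h2 : Continuous fun q : X d × X d => jp β (y - z) q.2 := hmc.comp continuous_snd
      exact (h1.mul h2.measurable).aestronglyMeasurable
    · obtain ⟨x, Y⟩ := q
      simp only [Function.uncurry_apply_pair]
      rw [norm_mul, Real.norm_eq_abs (RTQj_g β z Y x)]
      exact mul_le_mul_of_nonneg_right (RTQj_g_le h z Y x) (norm_nonneg _)
  have hsw := integral_integral_swap hint
  have e1 : ∀ᵐ x ∂μ, ((13 : ℕ) - 2 * 4 * ⟪x - z, x - y⟫) * ga 4 (x - y) =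
      ∫ Y : X d, RTQj_g β z Y x * jp β (y - z) Y := by
    have h0 : μ {z} = 0 := hG.singleton (by norm_num) z
    have h1 : ∀ᵐ x ∂μ, x ≠ z := by
      rw [ae_iff]
      simpa using h0
    filter_upwards [h1] with x hx
    have hn : ‖x - z‖ ≠ 0 := norm_ne_zero_iff.2 (sub_ne_zero.2 hx)
    have hk := jp_ker h h' (x - z) (y - z)
    have e2 : x - z - (y - z) = x - y := by abel
    rw [e2] at hk
    have e3 : ∀ Y : X d, RTQj_g β z Y x * jp β (y - z) Y =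
        ‖x - z‖⁻¹ ^ 12 * ((1 - 2 * β * ⟪x - z, x - z - Y⟫) * ga β (x - z - Y) *
          jp β (y - z) Y) := by
      intro Y
      unfold RTQj_g
      rw [sub_add_eq_sub_sub]
      ring
    rw [integral_congr_ae (Eventually.of_forall e3), integral_const_mul, hk]
    push_cast
    field_simp
    ring
  have e4 : ∀ Y : X d, jp β (y - z) Y * K13 μ z β (z + Y) =
      ∫ x, RTQj_g β z Y x * jp β (y - z) Y ∂μ := by
    intro Y
    rw [RTQj_K13_eq, integral_mul_const, mul_comm]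
  unfold Jf
  rw [integral_congr_ae e1, hsw]
  exact integral_congr_ae (Eventually.of_forall fun Y => (e4 Y).symm)

theorem J_le_Q13 (d : ℕ) : ∃ C : ℝ, 0 < C ∧ ∀ (μ : Measure (X d)) (C₀ : ℝ), IsFiniteMeasure μ →
    0 ≤ C₀ → Gr 13 C₀ μ → ∀ z y : X d, ∀ s : ℝ, 1 / 4 ≤ s → s ≤ 1 / 2 →
      ENNReal.ofReal (Jf 13 μ 4 z y ^ 2) ≤ ENNReal.ofReal (C * (1 + ‖y - z‖) ^ 24) * Q13 μ z s := by
  obtain ⟨C, hC0, hsq⟩ := jp_sq d
  have hg := gc_pos (d := d) (b := 4) (by norm_num)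
  refine ⟨C * gc d 4, by positivity, ?_⟩
  intro μ C₀ hfin hC hG z y s hs1 hs2
  have := hfin
  have hs0 : 0 < s := by linarith
  have h8 : 8 ≤ 2 / s ^ 2 := by
    rw [le_div_iff₀ (by positivity)]
    nlinarith
  have h32 : 2 / s ^ 2 ≤ 32 := by
    rw [div_le_iff₀ (by positivity)]
    nlinarith
  have hrep := RTQj_rep hC hG h8 h32 z y
  have hjs := hsq (2 / s ^ 2) h8 h32 (y - z)
  have hQ : Q13 μ z s = ENNReal.ofReal ((s ^ d * gc d 4)⁻¹ * s⁻¹ ^ 2) *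
      ∫⁻ Y, ‖K13 μ z (2 / s ^ 2) Y‖ₑ ^ 2 := rfl
  generalize 2 / s ^ 2 = β at h8 h32 hrep hjs hQ
  have hmc := jp_cont β (y - z)
  have hKm := RTQj_K13_meas μ β z
  -- Cauchy-Schwarz
  have h1 : ‖Jf 13 μ 4 z y‖ₑ ≤ (∫⁻ Y : X d, ‖jp β (y - z) Y‖ₑ ^ 2) ^ (1 / 2 : ℝ) *
      (∫⁻ Y : X d, ‖K13 μ z β (z + Y)‖ₑ ^ 2) ^ (1 / 2 : ℝ) := by
    rw [hrep]
    have h2 : ∫⁻ Y : X d, ‖jp β (y - z) Y * K13 μ z β (z + Y)‖ₑ ≤
        ∫⁻ Y : X d, ((fun Y : X d => ‖jp β (y - z) Y‖ₑ) *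
          (fun Y : X d => ‖K13 μ z β (z + Y)‖ₑ)) Y := by
      refine lintegral_mono fun Y => ?_
      simp only [Pi.mul_apply]
      rw [enorm_mul]
    have h3 := ENNReal.lintegral_mul_le_Lp_mul_Lq (volume : Measure (X d))
      (Real.HolderConjugate.two_two) (f := fun Y : X d => ‖jp β (y - z) Y‖ₑ)
      (g := fun Y : X d => ‖K13 μ z β (z + Y)‖ₑ)
      hmc.measurable.enorm.aemeasurable hKm.measurable.enorm.aemeasurable
    simp only [ENNReal.rpow_two] at h3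
    exact (enorm_integral_le_lintegral_enorm _).trans (h2.trans h3)
  have h4 : ENNReal.ofReal (Jf 13 μ 4 z y ^ 2) = ‖Jf 13 μ 4 z y‖ₑ ^ 2 := by
    rw [← ofReal_norm, ← ENNReal.ofReal_pow (norm_nonneg _), Real.norm_eq_abs, sq_abs]
  have h5 : ‖Jf 13 μ 4 z y‖ₑ ^ 2 ≤ (∫⁻ Y : X d, ‖jp β (y - z) Y‖ₑ ^ 2) *
      (∫⁻ Y : X d, ‖K13 μ z β (z + Y)‖ₑ ^ 2) := by
    refine (pow_le_pow_left' h1 2).trans (le_of_eq ?_)
    rw [mul_pow, ← ENNReal.rpow_natCast, ← ENNReal.rpow_natCast, ← ENNReal.rpow_mul,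
      ← ENNReal.rpow_mul]
    norm_num
  have h6 : ∫⁻ Y : X d, ‖K13 μ z β (z + Y)‖ₑ ^ 2 = ∫⁻ Y : X d, ‖K13 μ z β Y‖ₑ ^ 2 :=
    lintegral_add_left_eq_self (μ := (volume : Measure (X d))) (fun Y => ‖K13 μ z β Y‖ₑ ^ 2) z
  have hsd : 0 < s ^ d * gc d 4 * s ^ 2 := by positivity
  have h7 : ∫⁻ Y : X d, ‖K13 μ z β Y‖ₑ ^ 2 =
      ENNReal.ofReal (s ^ d * gc d 4 * s ^ 2) * Q13 μ z s := by
    rw [hQ, ← mul_assoc, ← ENNReal.ofReal_mul hsd.le]
    have h9 : s ^ d * gc d 4 * s ^ 2 * ((s ^ d * gc d 4)⁻¹ * s⁻¹ ^ 2) = 1 := by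
      field_simp
    rw [h9, ENNReal.ofReal_one, one_mul]
  have h8' : ENNReal.ofReal (s ^ d * gc d 4 * s ^ 2) ≤ ENNReal.ofReal (gc d 4) := by
    refine ENNReal.ofReal_le_ofReal ?_
    have h9 : s ^ d ≤ 1 := pow_le_one₀ hs0.le (by linarith)
    have h10 : s ^ 2 ≤ 1 := pow_le_one₀ hs0.le (by linarith)
    calc s ^ d * gc d 4 * s ^ 2 ≤ 1 * gc d 4 * 1 := by gcongr
      _ = gc d 4 := by ring
  rw [h4]
  refine h5.trans ?_
  rw [h6, h7]
  calc (∫⁻ Y : X d, ‖jp β (y - z) Y‖ₑ ^ 2) *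
        (ENNReal.ofReal (s ^ d * gc d 4 * s ^ 2) * Q13 μ z s)
      ≤ ENNReal.ofReal (C * (1 + ‖y - z‖) ^ 24) * (ENNReal.ofReal (gc d 4) * Q13 μ z s) :=
        mul_le_mul' hjs (mul_le_mul' h8' le_rfl)
    _ = ENNReal.ofReal (C * gc d 4 * (1 + ‖y - z‖) ^ 24) * Q13 μ z s := by
        rw [← mul_assoc, ← ENNReal.ofReal_mul (by positivity)]
        congr 2
        ring

end Pool.Agent.H48.RT
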