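import Pool.Agent.H48.RG.Defs

/-!
Dimension thirteen: definitions.
-/

set_option autoImplicit false

open MeasureTheory Filter Topology Metric Set
open scoped RealInnerProductSpace ENNReal

namespace Pool.Agent.H48.RT

open Pool.Agent.RZ Pool.Agent.H1.LD Pool.Agent.H48.R7 Pool.Agent.H48.RG

variable {d : ℕ}

/-- the scalar kernel of dimension thirteen, integrated against the measure -/
noncomputable def K13 (μ : Measure (X d)) (z : X d) (β : ℝ) (Y : X d) : ℝ :=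
  ∫ x, ‖x - z‖⁻¹ ^ 12 * ek 1 β z x Y ∂μ

/-- the square function -/
noncomputable def Q13 (μ : Measure (X d)) (z : X d) (t : ℝ) : ℝ≥0∞ :=
  ENNReal.ofReal ((t ^ d * gc d 4)⁻¹ * t⁻¹ ^ 2) * ∫⁻ Y, ‖K13 μ z (2 / t ^ 2) Y‖ₑ ^ 2

/-- measures for which all kernels are absolutely integrable -/
def Nice13 (ν : Measure (X d)) : Prop :=
  IsFiniteMeasure ν ∧ ∃ C : ℝ, ∀ p : X d, ∫⁻ x, ‖x - p‖ₑ⁻¹ ^ 13 ∂ν ≤ ENNReal.ofReal C

/-- the Riesz transform of dimension thirteen of a nice measure -/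
noncomputable def F13 (ν : Measure (X d)) (z : X d) : X d := ∫ x, ‖z - x‖⁻¹ ^ 14 • (z - x) ∂ν

end Pool.Agent.H48.RT
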