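import Pool.Agent.H48.RT.Defs
import Pool.Agent.H48.RG.EnD
import Pool.Agent.H48.RF.All13

/-!
The energy inequality in dimension thirteen.
-/

set_option autoImplicit false

open MeasureTheory Filter Topology Metric Set
open scoped RealInnerProductSpace ENNReal

namespace Pool.Agent.H48.RT

open Pool.Agent.RZ Pool.Agent.H1.LD Pool.Agent.H48.R7 Pool.Agent.H48.RG Pool.Agent.H48.RF

variable {d : ℕ}

theorem energy_thirteen {ν : Measure (X d)} (h : Nice13 ν) :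
    ∫⁻ z, (∫⁻ t in Ioi (0 : ℝ), Q13 ν z t * ENNReal.ofReal t⁻¹) ∂ν ≤
      ENNReal.ofReal (20 * ∫ z, ‖F13 ν z‖ ^ 2 ∂ν) := by
  have h1 := energyN (M := 6) (c := c13) (T := T13) c13_pos (ok13 d)
    (fun a b ha hb hab => hid13 ha hb hab) (ν := ν) h
  refine h1.trans (ENNReal.ofReal_le_ofReal ?_)
  have h2 : (0 : ℝ) ≤ ∫ z, ‖FN (2 * 6 + 1) ν z‖ ^ 2 ∂ν := integral_nonneg fun z => by positivity
  have h3 : ((c13 : ℚ) : ℝ)⁻¹ ≤ 20 := by
    unfold c13 D13
    norm_num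
  exact mul_le_mul_of_nonneg_right h3 h2

end Pool.Agent.H48.RT
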