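import Pool.Agent.H48.RT.Defs
import Pool.Agent.H48.R7.QjD

/-!
The test function of the representation formula: definition (jb, jq, js are those of R7).
-/

set_option autoImplicit false

open MeasureTheory Filter Topology Metric Set
open scoped RealInnerProductSpace ENNReal

namespace Pool.Agent.H48.RT

open Pool.Agent.RZ Pool.Agent.H1.LD Pool.Agent.H48.R7

variable {d : ℕ}

/-- the test function -/
noncomputable def jp (β : ℝ) (p Y : X d) : ℝ :=
  (gc d (β + jb β))⁻¹ * (‖jq β p Y‖ ^ 12 -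
    6 * (d + 10) * js β * ‖jq β p Y‖ ^ 10 +
    15 * (d + 8) * (d + 10) * js β ^ 2 * ‖jq β p Y‖ ^ 8 -
    20 * (d + 6) * (d + 8) * (d + 10) * js β ^ 3 * ‖jq β p Y‖ ^ 6 +
    15 * (d + 4) * (d + 6) * (d + 8) * (d + 10) * js β ^ 4 * ‖jq β p Y‖ ^ 4 -
    6 * (d + 2) * (d + 4) * (d + 6) * (d + 8) * (d + 10) * js β ^ 5 * ‖jq β p Y‖ ^ 2 +
    d * (d + 2) * (d + 4) * (d + 6) * (d + 8) * (d + 10) * js β ^ 6) *
    ga (jb β) (Y - p)

end Pool.Agent.H48.RT
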